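import Pool.Agent.Helper42.CV.Defs
import Pool.Agent.Helper29.TRI.VDefs
import Pool.Agent.Helper29.CV.Spn

/-!
# CV, C10b: the Veronese embedding
-/

set_option autoImplicit false

namespace Pool.Agent.CV

open Module MvPolynomial Pool.Agent.TRI

universe u

section

variable {k₀ : Type u} [Field k₀]

private theorem mon_hom23 {n : ℕ} (s : Multiset (Fin n)) :
    ((s.map (X : Fin n → MvPolynomial (Fin n) k₀)).prod).IsHomogeneous (Multiset.card s) := by
  induction s using Multiset.induction_on with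
  | empty => simpa using isHomogeneous_one (Fin n) k₀
  | cons a s ih =>
    rw [Multiset.map_cons, Multiset.prod_cons, Multiset.card_cons, add_comm]
    exact (isHomogeneous_X k₀ a).mul ih

private theorem ver_hom23 {N N' d : ℕ} (e : Fin (N' + 1) ≃ Sym (Fin (N + 1)) d) (i : Fin (N' + 1)) :
    (ver e (X : Fin (N + 1) → MvPolynomial (Fin (N + 1)) k₀) i).IsHomogeneous d := by
  have h := mon_hom23 (k₀ := k₀) (e i : Multiset (Fin (N + 1)))
  rwa [show Multiset.card (e i : Multiset (Fin (N + 1))) = d from (e i).2] at h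

/-- the substitution `Y i ↦ X ^ (e i)` -/
private noncomputable def sub23 (K : Type u) [Field K] {N N' d : ℕ} (e : Fin (N' + 1) ≃ Sym (Fin (N + 1)) d) :
    MvPolynomial (Fin (N' + 1)) K →ₐ[K] MvPolynomial (Fin (N + 1)) K := aeval (ver e X)

private theorem sub_comp23 {N N' d : ℕ} (hd : 1 ≤ d) (e : Fin (N' + 1) ≃ Sym (Fin (N + 1)) d)
    (p : MvPolynomial (Fin (N' + 1)) k₀) (m : ℕ) :
    homogeneousComponent (d * m) (sub23 k₀ e p) = sub23 k₀ e (homogeneousComponent m p) := by
  classical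
  have h1 : ∀ i, homogeneousComponent (d * m) (sub23 k₀ e (homogeneousComponent i p)) =
      if i = m then sub23 k₀ e (homogeneousComponent m p) else 0 := by
    intro i
    have h2 : (sub23 k₀ e (homogeneousComponent i p)).IsHomogeneous (d * i) :=
      (homogeneousComponent_isHomogeneous i p).aeval _ (ver_hom23 e)
    have h3 := homogeneousComponent_of_mem (m := d * m) ((mem_homogeneousSubmodule _ _).2 h2)
    rw [h3]
    by_cases h : i = m
    · rw [if_pos h, if_pos (by rw [h]), h]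
    · rw [if_neg h, if_neg (fun h' => h (Nat.eq_of_mul_eq_mul_left hd h'.symm))]
  conv_lhs => rw [← sum_homogeneousComponent p]
  rw [map_sum, map_sum, Finset.sum_congr rfl fun i _ => h1 i, Finset.sum_ite_eq']
  split_ifs with h
  · rfl
  · rw [Finset.mem_range, not_lt] at h
    rw [homogeneousComponent_eq_zero m p (by omega), map_zero]

private theorem vty_comap23 {N N' n d : ℕ} (hd : 1 ≤ d) (e : Fin (N' + 1) ≃ Sym (Fin (N + 1)) d)
    {I : Ideal (MvPolynomial (Fin (N + 1)) k₀)} (hX : Vty n I) : Vty n (I.comap (sub23 k₀ e)) := by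
  classical
  have := hX.prime
  have hdom : IsDomain (MvPolynomial (Fin (N + 1)) k₀ ⧸ I) := Ideal.Quotient.isDomain I
  set I' : Ideal (MvPolynomial (Fin (N' + 1)) k₀) := I.comap (sub23 k₀ e) with hI''
  have hI' : ∀ p, p ∈ I' ↔ sub23 k₀ e p ∈ I := fun p => Iff.rfl
  have hprime : I'.IsPrime := Ideal.comap_isPrime _ _
  refine ⟨?_, hprime, ?_⟩
  · intro p hp m
    rw [hI', ← sub_comp23 hd]
    exact hX.hom _ ((hI' p).1 hp) _
  · let ψ : (MvPolynomial (Fin (N' + 1)) k₀ ⧸ I') →ₐ[k₀] (MvPolynomial (Fin (N + 1)) k₀ ⧸ I) :=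
      Ideal.quotientMapₐ I (sub23 k₀ e) le_rfl
    have hψ : Function.Injective ψ := Ideal.quotientMap_injective
    let _ : Algebra (MvPolynomial (Fin (N' + 1)) k₀ ⧸ I') (MvPolynomial (Fin (N + 1)) k₀ ⧸ I) := ψ.toRingHom.toAlgebra
    have hst : IsScalarTower k₀ (MvPolynomial (Fin (N' + 1)) k₀ ⧸ I') (MvPolynomial (Fin (N + 1)) k₀ ⧸ I) :=
      IsScalarTower.of_algebraMap_eq fun c => (ψ.commutes c).symm
    have hA : IsDomain (MvPolynomial (Fin (N' + 1)) k₀ ⧸ I') := Ideal.Quotient.isDomain I'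
    have hf1 : FaithfulSMul (MvPolynomial (Fin (N' + 1)) k₀ ⧸ I') (MvPolynomial (Fin (N + 1)) k₀ ⧸ I) :=
      (faithfulSMul_iff_algebraMap_injective _ _).2 hψ
    have hx : ∀ j : Fin (N + 1), IsIntegral (MvPolynomial (Fin (N' + 1)) k₀ ⧸ I') (Ideal.Quotient.mk I (X j)) := by
      intro j
      refine IsIntegral.of_pow (n := d) hd ?_
      have h1 : Ideal.Quotient.mk I (X j) ^ d = algebraMap (MvPolynomial (Fin (N' + 1)) k₀ ⧸ I') _
          (Ideal.Quotient.mk I' (X (e.symm (Sym.replicate d j)))) := by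
        show _ = Ideal.Quotient.mk I (sub23 k₀ e (X (e.symm (Sym.replicate d j))))
        rw [sub23, aeval_X, ver, Equiv.apply_symm_apply, Sym.coe_replicate, Multiset.map_replicate, Multiset.prod_replicate,
          map_pow]
      rw [h1]
      exact isIntegral_algebraMap
    have hint : ∀ b : MvPolynomial (Fin (N + 1)) k₀ ⧸ I, IsIntegral (MvPolynomial (Fin (N' + 1)) k₀ ⧸ I') b := by
      intro b
      obtain ⟨p, rfl⟩ := Ideal.Quotient.mk_surjective b
      induction p using MvPolynomial.induction_on with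
      | C a =>
        have h1 : Ideal.Quotient.mk I (C a) = algebraMap (MvPolynomial (Fin (N' + 1)) k₀ ⧸ I') _ (algebraMap k₀ _ a) := by
          rw [← IsScalarTower.algebraMap_apply]
          rfl
        rw [h1]
        exact isIntegral_algebraMap
      | add p q hp hq => rw [map_add]; exact hp.add hq
      | mul_X p j hp => rw [map_mul]; exact hp.mul (hx j)
    have hI : Algebra.IsIntegral (MvPolynomial (Fin (N' + 1)) k₀ ⧸ I') (MvPolynomial (Fin (N + 1)) k₀ ⧸ I) := ⟨hint⟩
    have halg : Algebra.IsAlgebraic (MvPolynomial (Fin (N' + 1)) k₀ ⧸ I') (MvPolynomial (Fin (N + 1)) k₀ ⧸ I) :=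
      Algebra.IsIntegral.isAlgebraic
    have h2 := trdeg_add_eq k₀ (MvPolynomial (Fin (N' + 1)) k₀ ⧸ I') (A := MvPolynomial (Fin (N + 1)) k₀ ⧸ I)
    rw [trdeg_eq_zero (R := MvPolynomial (Fin (N' + 1)) k₀ ⧸ I') (A := MvPolynomial (Fin (N + 1)) k₀ ⧸ I), add_zero, hX.tr] at h2
    exact h2

end

theorem ver_cv {k₀ : Type u} [Field k₀] [CharZero k₀] {N d : ℕ} (hd : 1 ≤ d) :
    ∃ (N' : ℕ) (e : Fin (N' + 1) ≃ Sym (Fin (N + 1)) d), ∀ (k : Type u) [Field k] [Algebra k₀ k]
      (I : Ideal (MvPolynomial (Fin (N + 1)) k)), ∃ I' : Ideal (MvPolynomial (Fin (N' + 1)) k), (∀ n, Vty n I → Vty n I') ∧ Spn d I' ∧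
      ∀ (K : Type u) [Field K] [Algebra k K] (x : Fin (N + 1) → K), OnX I x → OnX I' (ver e x) := by
  classical
  obtain ⟨N', hN'⟩ : ∃ N', Fintype.card (Sym (Fin (N + 1)) d) = N' + 1 :=
    ⟨_, (Nat.succ_pred_eq_of_pos (Fintype.card_pos_iff.2 ⟨Sym.replicate d 0⟩)).symm⟩
  let e : Fin (N' + 1) ≃ Sym (Fin (N + 1)) d := (Fintype.equivFinOfCardEq hN').symm
  refine ⟨N', e, fun k _ _ I => ⟨I.comap (sub23 k e), fun n hX => vty_comap23 hd e hX, ?_, ?_⟩⟩
  · refine spn_ver hd e _ fun p hp => ?_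
    show sub23 k e p ∈ I
    have : sub23 k e p = 0 := hp
    rw [this]
    exact I.zero_mem
  · intro K _ _ x hx g hg
    have h1 : aeval (ver e x) g = aeval x (sub23 k e g) := by
      have h2 : (aeval (ver e x) : MvPolynomial (Fin (N' + 1)) k →ₐ[k] K) = (aeval x).comp (sub23 k e) := by
        refine MvPolynomial.algHom_ext fun i => ?_
        rw [AlgHom.comp_apply, sub23, aeval_X, aeval_X, ver, ver, map_multiset_prod, Multiset.map_map]
        congr 1
        exact Multiset.map_congr rfl fun j _ => (aeval_X _ j).symm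
      rw [h2, AlgHom.comp_apply]
    rw [h1]
    exact hx _ hg

end Pool.Agent.CV
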